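import Pool.Agent.H938R2.TB.T3
import Pool.Agent.H960R2.VB.TaskB

/-!
# Rank two bundles and power maps: algebra of the exponents, general lemmas on sections
-/

set_option autoImplicit false

open MvPolynomial H960VB H938TB

namespace Pool.Agent.Q72.PW

variable {n : ℕ}

abbrev R (n : ℕ) := MvPolynomial (Fin (n + 1)) ℂ

/-! ### keeping the monomials whose exponents satisfy `S` -/

def Ok (e : ℕ) (T : Finset (Fin (n + 1))) (s : Fin (n + 1) →₀ ℕ) : Prop := ∀ j ∈ T, e ∣ s j

/-- exponents congruent to `r` -/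
def Cg (e : ℕ) (r s : Fin (n + 1) →₀ ℕ) : Prop := ∀ j, s j % e = r j % e

/-- `S` is invariant under adding multiples of `e` -/
def Per (e : ℕ) (S : (Fin (n + 1) →₀ ℕ) → Prop) : Prop :=
  ∀ u s, (∀ j, e ∣ u j) → (S (u + s) ↔ S s)

theorem per_ok (e : ℕ) (T : Finset (Fin (n + 1))) : Per e (Ok e T) := by
  intro u s hu
  constructor
  · intro h j hj
    have h2 := h j hj
    rw [Finsupp.add_apply] at h2
    exact (Nat.dvd_add_right (hu j)).1 h2
  · intro h j hj
    rw [Finsupp.add_apply]
    exact dvd_add (hu j) (h j hj)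

theorem per_cg (e : ℕ) (r : Fin (n + 1) →₀ ℕ) : Per e (Cg e r) := by
  intro u s hu
  have h : ∀ j, (u + s) j % e = s j % e := by
    intro j
    obtain ⟨t, ht⟩ := hu j
    rw [Finsupp.add_apply, ht, Nat.mul_add_mod]
  constructor
  · intro h1 j
    rw [← h j]; exact h1 j
  · intro h1 j
    rw [h j]; exact h1 j

open Classical in
noncomputable def filS (S : (Fin (n + 1) →₀ ℕ) → Prop) (p : R n) : R n :=
  ∑ s ∈ p.support, if S s then monomial s (coeff s p) else 0

open Classical in
theorem coeff_filS (S : (Fin (n + 1) →₀ ℕ) → Prop) (p : R n) (s : Fin (n + 1) →₀ ℕ) :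
    coeff s (filS S p) = if S s then coeff s p else 0 := by
  unfold filS
  rw [coeff_sum]
  by_cases hs : s ∈ p.support
  · rw [Finset.sum_eq_single s]
    · split_ifs with h
      · rw [coeff_monomial, if_pos rfl]
      · exact coeff_zero s
    · intro t _ ht
      split_ifs with h
      · rw [coeff_monomial, if_neg ht]
      · exact coeff_zero s
    · intro h; exact absurd hs h
  · rw [Finset.sum_eq_zero]
    · rw [notMem_support_iff.1 hs, ite_self]
    · intro t ht
      have hne : t ≠ s := fun h => hs (h ▸ ht)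
      split_ifs with h
      · rw [coeff_monomial, if_neg hne]
      · exact coeff_zero s

theorem coeff_expand_dvd {e : ℕ} {p : R n} {s : Fin (n + 1) →₀ ℕ}
    (h : coeff s (expand e p) ≠ 0) (j : Fin (n + 1)) : e ∣ s j := by
  by_contra hc
  exact h (coeff_expand_of_not_dvd _ hc)

theorem filS_mul (e : ℕ) {S : (Fin (n + 1) →₀ ℕ) → Prop} (hS : Per e S) (b p : R n) :
    filS S (expand e b * p) = expand e b * filS S p := by
  classical
  ext s
  rw [coeff_filS, coeff_mul, coeff_mul]
  by_cases hs : S s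
  · rw [if_pos hs]
    refine Finset.sum_congr rfl fun uv huv => ?_
    rw [coeff_filS]
    by_cases h0 : coeff uv.1 (expand e b) = 0
    · rw [h0, zero_mul, zero_mul]
    · rw [if_pos]
      rw [← Finset.HasAntidiagonal.mem_antidiagonal.1 huv] at hs
      exact (hS _ _ (coeff_expand_dvd h0)).1 hs
  · rw [if_neg hs]
    symm
    refine Finset.sum_eq_zero fun uv huv => ?_
    rw [coeff_filS]
    by_cases h0 : coeff uv.1 (expand e b) = 0
    · rw [h0, zero_mul]
    · rw [if_neg, mul_zero]
      intro hok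
      apply hs
      rw [← Finset.HasAntidiagonal.mem_antidiagonal.1 huv]
      exact (hS _ _ (coeff_expand_dvd h0)).2 hok

theorem filS_sum (S : (Fin (n + 1) →₀ ℕ) → Prop) {ι : Type*} (A : Finset ι) (f : ι → R n) :
    filS S (∑ i ∈ A, f i) = ∑ i ∈ A, filS S (f i) := by
  classical
  ext s
  rw [coeff_filS, coeff_sum, coeff_sum]
  split_ifs with h
  · exact Finset.sum_congr rfl fun i _ => by rw [coeff_filS, if_pos h]
  · symm
    exact Finset.sum_eq_zero fun i _ => by rw [coeff_filS, if_neg h]

theorem filS_zero (S : (Fin (n + 1) →₀ ℕ) → Prop) : filS S (0 : R n) = 0 := by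
  classical
  ext s
  rw [coeff_filS, coeff_zero, ite_self]

noncomputable abbrev fil (e : ℕ) (T : Finset (Fin (n + 1))) (p : R n) : R n := filS (Ok e T) p

open Classical in
theorem coeff_fil (e : ℕ) (T : Finset (Fin (n + 1))) (p : R n) (s : Fin (n + 1) →₀ ℕ) :
    coeff s (fil e T p) = if Ok e T s then coeff s p else 0 := coeff_filS _ _ _

theorem fil_empty (e : ℕ) (p : R n) : fil e ∅ p = p := by
  classical
  ext s
  rw [coeff_fil, if_pos]
  intro j hj
  exact absurd hj (Finset.notMem_empty j)

theorem X_dvd_sub (e : ℕ) (T : Finset (Fin (n + 1))) (j : Fin (n + 1)) (p : R n) :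
    X j ∣ fil e T p - fil e (insert j T) p := by
  classical
  rw [X_dvd_iff_modMonomial_eq_zero]
  ext s
  by_cases hs : Finsupp.single j 1 ≤ s
  · rw [coeff_modMonomial_of_le _ hs, coeff_zero]
  · rw [coeff_modMonomial_of_not_le _ hs, coeff_zero, coeff_sub, coeff_fil, coeff_fil]
    have h0 : s j = 0 := by
      by_contra h
      apply hs
      rw [Finsupp.single_le_iff]
      omega
    by_cases h : Ok e T s
    · rw [if_pos h, if_pos, sub_self]
      intro i hi
      rcases Finset.mem_insert.1 hi with rfl | hi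
      · rw [h0]; exact dvd_zero e
      · exact h i hi
    · rw [if_neg h, if_neg, sub_self]
      exact fun h' => h fun i hi => h' i (Finset.mem_insert_of_mem hi)

/-- a polynomial in the `e`-th powers -/
theorem exists_expand (e : ℕ) (p : R n) (h : ∀ s, coeff s p ≠ 0 → ∀ j, e ∣ s j) :
    ∃ q, expand e q = p := by
  have hmem : p ∈ (expand (R := ℂ) (σ := Fin (n + 1)) e).range := by
    rw [p.as_sum]
    refine Subalgebra.sum_mem _ fun s hs => ?_
    have h1 := h s (mem_support_iff.1 hs)
    choose t ht using h1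
    refine ⟨monomial (Finsupp.equivFunOnFinite.symm t) (coeff s p), ?_⟩
    show expand e (monomial _ _) = _
    have hst : e • Finsupp.equivFunOnFinite.symm t = s := by
      ext j
      rw [Finsupp.smul_apply, Finsupp.equivFunOnFinite_symm_apply_apply, ht j, smul_eq_mul]
    rw [expand_monomial, hst]
  exact hmem

/-- the monomials with exponents congruent to `r` -/
theorem exists_expand_cg (e : ℕ) (r : Fin (n + 1) →₀ ℕ) (hr : ∀ j, r j < e) (p : R n) :
    ∃ q, monomial r 1 * expand e q = filS (Cg e r) p := by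
  classical
  have h1 : monomial r (1 : ℂ) ∣ filS (Cg e r) p := by
    rw [monomial_one_dvd_iff_modMonomial_eq_zero]
    ext s
    by_cases hs : r ≤ s
    · rw [coeff_modMonomial_of_le _ hs, coeff_zero]
    · rw [coeff_modMonomial_of_not_le _ hs, coeff_zero, coeff_filS, if_neg]
      intro hc
      apply hs
      intro j
      have h2 := hc j
      rw [Nat.mod_eq_of_lt (hr j)] at h2
      rw [← h2]
      exact Nat.mod_le _ _
  obtain ⟨q', hq'⟩ := h1
  obtain ⟨q, hq⟩ := exists_expand e q' (by
    intro s hs j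
    have h2 : coeff (r + s) (filS (Cg e r) p) ≠ 0 := by
      rw [hq', coeff_monomial_mul, one_mul]
      exact hs
    rw [coeff_filS] at h2
    by_cases hc : Cg e r (r + s)
    · have h3 := hc j
      rw [Finsupp.add_apply] at h3
      have h4 : (r j + s j) ≡ (r j + 0) [MOD e] := by simpa [Nat.ModEq] using h3
      exact (Nat.modEq_zero_iff_dvd).1 (Nat.ModEq.add_left_cancel' _ h4)
    · rw [if_neg hc] at h2
      exact absurd rfl h2)
  exact ⟨q, by rw [hq, hq']⟩

theorem exists_expand_fil (e : ℕ) (p : R n) : ∃ q, expand e q = fil e Finset.univ p := by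
  classical
  refine exists_expand e _ fun s hs j => ?_
  rw [coeff_fil] at hs
  by_cases h : Ok e Finset.univ s
  · exact h j (Finset.mem_univ j)
  · rw [if_neg h] at hs
    exact absurd rfl hs

/-! ### degrees -/

theorem degree_smul (e : ℕ) (s : Fin (n + 1) →₀ ℕ) : (e • s).degree = e * s.degree := by
  rw [map_nsmul, smul_eq_mul]

theorem degree_eq (s : Fin (n + 1) →₀ ℕ) : Finsupp.weight 1 s = s.degree := by
  rw [Finsupp.degree_eq_weight_one]
  rfl

theorem HomZ.iff {p : R n} {d : ℤ} :
    HomZ p d ↔ ∀ s, coeff s p ≠ 0 → (s.degree : ℤ) = d := by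
  constructor
  · rintro (rfl | ⟨k, rfl, hk⟩) s hs
    · exact absurd (coeff_zero s) hs
    · have h1 := hk hs
      rw [degree_eq] at h1
      exact_mod_cast h1
  · intro h
    by_cases h0 : p = 0
    · exact Or.inl h0
    · obtain ⟨u, hu⟩ := ne_zero_iff.1 h0
      refine Or.inr ⟨u.degree, h u hu, fun s hs => ?_⟩
      rw [degree_eq]
      have h1 := h u hu
      have h2 := h s hs
      rw [← h1] at h2
      exact_mod_cast h2

theorem HomZ.expand {p : R n} {d : ℤ} (e : ℕ) (he : 0 < e) (h : HomZ p d) :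
    HomZ (MvPolynomial.expand e p) (e * d) := by
  rw [HomZ.iff] at h ⊢
  intro s hs
  have h1 := coeff_expand_dvd hs
  choose t ht using h1
  have hst : s = e • Finsupp.equivFunOnFinite.symm t := by
    ext j
    rw [Finsupp.smul_apply, Finsupp.equivFunOnFinite_symm_apply_apply, ht j, smul_eq_mul]
  rw [hst, coeff_expand_smul _ he.ne'] at hs
  rw [hst, degree_smul]
  push_cast
  rw [h _ hs]

theorem HomZ.of_expand {p : R n} {d : ℤ} (e : ℕ) (he : 0 < e)
    (h : HomZ (MvPolynomial.expand e p) (e * d)) : HomZ p d := by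
  rw [HomZ.iff] at h ⊢
  intro s hs
  have h1 := h (e • s) (by rwa [coeff_expand_smul _ he.ne'])
  rw [degree_smul] at h1
  push_cast at h1
  exact mul_left_cancel₀ (by exact_mod_cast he.ne') h1

theorem HomZ.filS {p : R n} {d : ℤ} (S : (Fin (n + 1) →₀ ℕ) → Prop) (h : HomZ p d) :
    HomZ (filS S p) d := by
  classical
  rw [HomZ.iff] at h ⊢
  intro s hs
  rw [coeff_filS] at hs
  apply h s
  intro h0
  rw [h0, ite_self] at hs
  exact hs rfl

theorem HomZ.mul {p q : R n} {d d' : ℤ} (hp : HomZ p d) (hq : HomZ q d') : HomZ (p * q) (d + d') := by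
  rcases hp with rfl | ⟨k, rfl, hk⟩
  · left; rw [zero_mul]
  · rcases hq with rfl | ⟨l, rfl, hl⟩
    · left; rw [mul_zero]
    · right
      exact ⟨k + l, by push_cast; rfl, hk.mul hl⟩

end Pool.Agent.Q72.PW
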