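import Pool.Agent.Q72.PW.Base

/-!
# Pull-back of rank two bundles under the power maps of projective space
-/

set_option autoImplicit false

open MvPolynomial H960VB H938TB

namespace Pool.Agent.Q72.PW

variable {n : ℕ}

/-! ### general lemmas (after `W615.Gen`) -/

section gen

variable {w : Fin (n + 1) → ℤ × ℤ} {E : Bundle2 n} {D : EqB E w}

theorem weight_fst (w : Fin (n + 1) → ℤ × ℤ) (u : Fin (n + 1) →₀ ℕ) :
    (Finsupp.weight (tw w) u).1 = (u.degree : ℤ) := by
  rw [Finsupp.weight_apply, Finsupp.sum_fintype _ _ (by simp), Prod.fst_sum,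
    Finsupp.degree_eq_sum]
  push_cast
  refine Finset.sum_congr rfl fun i _ => ?_
  simp [tw]

theorem homZ_of {p : R n} {τ : M} (hp : IsWeightedHomogeneous (tw w) p τ) : HomZ p τ.1 := by
  rw [HomZ.iff]
  intro s hs
  rw [← weight_fst w, hp hs]

theorem wh_triv {p : R n} {d : ℤ} (h : HomZ p d) :
    IsWeightedHomogeneous (tw (0 : Fin (n + 1) → ℤ × ℤ)) p (d, 0) := by
  rw [HomZ.iff] at h
  intro u hu
  have h1 := h u hu
  rw [Finsupp.degree_eq_sum] at h1
  rw [Finsupp.weight_apply, Finsupp.sum_fintype _ _ (by simp)]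
  have h2 : ∀ i, u i • tw (0 : Fin (n + 1) → ℤ × ℤ) i = ((u i : ℤ), 0) := by
    intro i
    simp [tw]
  simp_rw [h2]
  ext
  · rw [Prod.fst_sum]
    show ∑ i, (u i : ℤ) = d
    rw [← h1]
    push_cast
    rfl
  · rw [Prod.snd_sum]
    simp
  · rw [Prod.snd_sum]
    simp

/-- the trivial action on a bundle. -/
def triv (E : Bundle2 n) : EqB E 0 where
  b := 0
  c := 0
  hB := by
    intro k i
    have h := wh_triv (E.hom k i)
    convert h using 1
    simp

theorem hsec_triv {E : Bundle2 n} {d : ℤ} {G : Vec E.a n} (h : ∀ i, HomZ (G i) (E.β i + d))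
    (hG : Ker E G) : HSec (triv E) (d, 0) G where
  hom := by
    intro i
    have h1 := wh_triv (h i)
    convert h1 using 1
    simp [triv]
  ker := hG

theorem ker_mul {G : Vec E.a n} (hG : Ker E G) (p : R n) : Ker E (fun i => p * G i) := by
  intro k
  have h1 := hG k
  calc ∑ i, E.B k i * (p * G i) = p * ∑ i, E.B k i * G i := by
        rw [Finset.mul_sum]
        exact Finset.sum_congr rfl fun i _ => by ring
    _ = 0 := by rw [h1, mul_zero]

theorem ker_add {G H : Vec E.a n} (hG : Ker E G) (hH : Ker E H) :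
    Ker E (fun i => G i + H i) := by
  intro k
  have h1 := hG k
  have h2 := hH k
  calc ∑ i, E.B k i * (G i + H i) = ∑ i, E.B k i * G i + ∑ i, E.B k i * H i := by
        rw [← Finset.sum_add_distrib]
        exact Finset.sum_congr rfl fun i _ => by ring
    _ = 0 := by rw [h1, h2, add_zero]

theorem ker_sub {G H : Vec E.a n} (hG : Ker E G) (hH : Ker E H) :
    Ker E (fun i => G i - H i) := by
  intro k
  have h1 := hG k
  have h2 := hH k
  calc ∑ i, E.B k i * (G i - H i) = ∑ i, E.B k i * G i - ∑ i, E.B k i * H i := by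
        rw [← Finset.sum_sub_distrib]
        exact Finset.sum_congr rfl fun i _ => by ring
    _ = 0 := by rw [h1, h2, sub_zero]

theorem ker_of_mul {G : Vec E.a n} {p : R n} (hp : p ≠ 0)
    (h : Ker E (fun i => p * G i)) : Ker E G := by
  intro k
  have h1 := h k
  have h2 : p * ∑ i, E.B k i * G i = 0 := by
    rw [← h1, Finset.mul_sum]
    exact Finset.sum_congr rfl fun i _ => by ring
  exact (mul_eq_zero.1 h2).resolve_left hp

theorem ker_of_section {d : ℤ} {G : Vec E.a n} (h : E.IsSection d G) : Ker E G := by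
  intro k
  refine TaskC2.ext_off_zero (by omega) fun x hx => ?_
  have h1 := h.2 x hx
  rw [Bundle2.fib, LinearMap.mem_ker, Matrix.mulVecLin_apply] at h1
  have h2 := congrFun h1 k
  rw [map_sum, map_zero]
  rw [Pi.zero_apply] at h2
  rw [← h2]
  simp only [Matrix.mulVec, dotProduct, evm, evv, Matrix.map_apply, map_mul]

theorem section_of_ker {d : ℤ} {G : Vec E.a n} (h : ∀ i, HomZ (G i) (E.β i + d))
    (hG : Ker E G) : E.IsSection d G := ⟨h, fun x _ => T3aux.ker_mem hG x⟩

variable (W : Wedge D)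

theorem exists_P_ne : ∃ i j, W.P i j ≠ 0 := by
  obtain ⟨i, j, h⟩ := W.P_ne (fun _ => 1) (fun h => by simpa using congrFun h 0)
  exact ⟨i, j, fun h0 => h (by rw [h0, map_zero])⟩

theorem wd_eq_of {G G' : Vec E.a n} (hG : Ker E G) (hG' : Ker E G')
    {φ : R n} (h : ∀ i j, G i * G' j - G j * G' i = φ * W.P i j) :
    W.wd G G' = φ := by
  obtain ⟨i, j, hij⟩ := exists_P_ne W
  apply mul_right_cancel₀ hij
  rw [← W.eq G G' hG hG', h]

theorem wd_sub_left {G H K : Vec E.a n} (hG : Ker E G) (hH : Ker E H) (hK : Ker E K) :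
    W.wd (fun i => G i - H i) K = W.wd G K - W.wd H K := by
  apply wd_eq_of W (ker_sub hG hH) hK
  intro i j
  have h1 := W.eq G K hG hK i j
  have h2 := W.eq H K hH hK i j
  linear_combination h1 - h2

/-- a polynomial without zeros away from the origin, in at least two variables, is constant. -/
theorem const_of_no_zero {m : ℕ} (hm : 2 ≤ m) {p : MvPolynomial (Fin m) ℂ}
    (hp : ∀ x : Fin m → ℂ, x ≠ 0 → eval x p ≠ 0) : ∃ c : ℂ, c ≠ 0 ∧ p = C c := by
  have hu : IsUnit p := by
    by_contra hu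
    have h0 : p ≠ 0 := by
      intro h0
      apply hp (fun _ => 1)
      · intro h
        simpa using congrFun h ⟨0, by omega⟩
      · rw [h0, map_zero]
    obtain ⟨π, hπ, hπp⟩ := WfDvdMonoid.exists_irreducible_factor hu h0
    obtain ⟨v, hv, hv0⟩ := no_isolated_prime hm π (UniqueFactorizationMonoid.irreducible_iff_prime.1 hπ)
    apply hp v hv
    obtain ⟨q, rfl⟩ := hπp
    rw [map_mul, hv0, zero_mul]
  rw [MvPolynomial.isUnit_iff_eq_C_of_isReduced] at hu
  obtain ⟨c, hc, rfl⟩ := hu
  exact ⟨c, hc.ne_zero, rfl⟩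

end gen

/-! ### the first Chern class -/

/-- `c₁(E) = c`: the matrix `P` of polynomials is an isomorphism `O(c) ≅ Λ²E`, that is, a nowhere
vanishing section of `Λ²E(-c)`; at each point it is `u ∧ v` for a basis `u, v` of the fibre. -/
def HasC1 (E : Bundle2 n) (c : ℤ) : Prop :=
  ∃ P : Fin E.a → Fin E.a → MvPolynomial (Fin (n + 1)) ℂ,
    (∀ i j, HomZ (P i j) (E.β i + E.β j - c)) ∧
    ∀ x : Fin (n + 1) → ℂ, x ≠ 0 → ∃ u v : Fin E.a → ℂ, u ∈ E.fib x ∧ v ∈ E.fib x ∧
      LinearIndependent ℂ ![u, v] ∧ ∀ i j, eval x (P i j) = u i * v j - u j * v i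

theorem exists_c1 (hn : 1 ≤ n) (E : Bundle2 n) : ∃ c, HasC1 E c := by
  obtain ⟨W⟩ := exists_wedge hn (triv E)
  refine ⟨W.κ.1, W.P, ?_, ?_⟩
  · have hx1 : (fun _ => 1 : Fin (n + 1) → ℂ) ≠ 0 := fun h => by simpa using congrFun h 0
    obtain ⟨τ, τ', G, G', hG, hG', hli⟩ := exists_sec (triv E) _ hx1
    have hw : W.wd G G' ≠ 0 := by
      intro h0
      have h1 := (W.ind _ hx1 G G' hG.ker hG'.ker).2 hli
      rw [h0, map_zero] at h1
      exact h1 rfl
    intro i j
    by_cases h0 : W.P i j = 0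
    · exact Or.inl h0
    · have h1 := T3aux.mm_hom hG hG' i j
      have h2 : T3aux.mm G G' i j = W.wd G G' * W.P i j := W.eq G G' hG.ker hG'.ker i j
      rw [h2] at h1
      obtain ⟨a, b, hab, ha, hb⟩ := hom_of_mul _ h1 (mul_ne_zero hw h0)
      have h3 : a = τ + τ' + W.κ := ha.inj_right hw (W.hom _ _ _ _ hG hG')
      have h4 := homZ_of hb
      have h5 : b.1 = E.β i + E.β j - W.κ.1 := by
        have h6 := congrArg Prod.fst hab
        rw [h3] at h6
        simp only [Prod.fst_add] at h6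
        linarith
      rwa [h5] at h4
  · intro x hx
    obtain ⟨τ, τ', G, G', hG, hG', hli⟩ := exists_sec (triv E) x hx
    have hw := (W.ind x hx G G' hG.ker hG'.ker).2 hli
    refine ⟨(eval x (W.wd G G'))⁻¹ • evv G x, evv G' x,
      Submodule.smul_mem _ _ (T3aux.ker_mem hG.ker x), T3aux.ker_mem hG'.ker x, ?_, ?_⟩
    · rw [LinearIndependent.pair_iff] at hli ⊢
      intro s t hst
      rw [smul_smul] at hst
      obtain ⟨h1, h2⟩ := hli _ _ hst
      exact ⟨(mul_eq_zero.1 h1).resolve_right (inv_ne_zero hw), h2⟩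
    · intro i j
      have h1 := congrArg (eval x) (W.eq G G' hG.ker hG'.ker i j)
      rw [map_mul, map_sub, map_mul, map_mul] at h1
      simp only [Pi.smul_apply, smul_eq_mul, evv]
      field_simp
      rw [h1]
      ring

/-! ### power maps -/

/-- the power map on points -/
def pt (e : ℕ) (x : Fin (n + 1) → ℂ) : Fin (n + 1) → ℂ := fun i => x i ^ e

theorem pt_ne {e : ℕ} (he : 0 < e) {x : Fin (n + 1) → ℂ} (hx : x ≠ 0) : pt e x ≠ 0 := by
  intro h
  apply hx
  funext i
  exact (pow_eq_zero_iff he.ne').1 (congrFun h i)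

theorem exists_pt {e : ℕ} (he : 0 < e) {y : Fin (n + 1) → ℂ} (hy : y ≠ 0) :
    ∃ x : Fin (n + 1) → ℂ, x ≠ 0 ∧ pt e x = y := by
  have h : ∀ i, ∃ z : ℂ, z ^ e = y i := fun i => IsAlgClosed.exists_pow_nat_eq (y i) he
  choose x hx using h
  refine ⟨x, ?_, funext hx⟩
  rintro rfl
  apply hy
  funext i
  rw [← hx i]
  simp [he.ne']

theorem eval_pt (e : ℕ) (x : Fin (n + 1) → ℂ) (p : R n) :
    eval x (expand e p) = eval (pt e x) p := by
  rw [eval_expand]
  rfl

/-- The pull-back of `E` under the map `x_i ↦ x_i ^ e` of `P^n` to itself, twisted by `O(t)`. -/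
@[reducible] noncomputable def pull (E : Bundle2 n) (e : ℕ) (he : 0 < e) (t : ℤ) : Bundle2 n where
  a := E.a
  c := E.c
  β := fun i => e * E.β i + t
  γ := fun k => e * E.γ k + t
  B := E.B.map (expand e)
  hom := fun k i => by
    have h1 := HomZ.expand e he (E.hom k i)
    have h : (e : ℤ) * (E.γ k - E.β i) = (e * E.γ k + t) - (e * E.β i + t) := by ring
    rw [h] at h1
    exact h1
  rank_two := by
    intro x hx
    have h : evm (E.B.map (expand e)) x = evm E.B (pt e x) := by
      ext k i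
      simp only [evm, Matrix.map_apply]
      exact eval_pt e x _
    rw [h]
    exact E.rank_two _ (pt_ne he hx)

theorem fib_pull (E : Bundle2 n) (e : ℕ) (he : 0 < e) (t : ℤ) (x : Fin (n + 1) → ℂ) :
    (pull E e he t).fib x = E.fib (pt e x) := by
  have h : evm (E.B.map (expand e)) x = evm E.B (pt e x) := by
    ext k i
    simp only [evm, Matrix.map_apply]
    exact eval_pt e x _
  unfold Bundle2.fib
  show LinearMap.ker (Matrix.mulVecLin (evm (E.B.map (expand e)) x)) = _
  rw [h]

theorem hasC1_pull {E : Bundle2 n} {c : ℤ} (h : HasC1 E c) (e : ℕ) (he : 0 < e) (t : ℤ) :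
    HasC1 (pull E e he t) (e * c + 2 * t) := by
  obtain ⟨P, h1, h2⟩ := h
  refine ⟨fun i j => expand e (P i j), ?_, ?_⟩
  · intro i j
    have h3 := HomZ.expand e he (h1 i j)
    have h4 : (e : ℤ) * (E.β i + E.β j - c) = (e * E.β i + t) + (e * E.β j + t) - (e * c + 2 * t) := by
      ring
    rw [h4] at h3
    exact h3
  · intro x hx
    obtain ⟨u, v, hu, hv, hli, hP⟩ := h2 _ (pt_ne he hx)
    refine ⟨u, v, ?_, ?_, hli, ?_⟩
    · rw [fib_pull]; exact hu
    · rw [fib_pull]; exact hv
    · intro i j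
      rw [eval_pt]
      exact hP i j

theorem ker_pull {E : Bundle2 n} {e : ℕ} (he : 0 < e) (t : ℤ) {H : Vec E.a n} :
    Ker (pull E e he t) (fun i => expand e (H i)) ↔ Ker E H := by
  constructor
  · intro h k
    apply expand_injective he
    have h1 := h k
    rw [map_sum, map_zero, ← h1]
    refine Finset.sum_congr rfl fun i _ => ?_
    rw [map_mul]
    rfl
  · intro h k
    have h1 := congrArg (expand e) (h k)
    rw [map_sum, map_zero] at h1
    rw [← h1]
    refine Finset.sum_congr rfl fun i _ => ?_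
    rw [map_mul]
    rfl

theorem ker_filS {E : Bundle2 n} {e : ℕ} (he : 0 < e) (t : ℤ) {S : (Fin (n + 1) →₀ ℕ) → Prop}
    (hS : Per e S) {G : Vec E.a n} (h : Ker (pull E e he t) G) :
    Ker (pull E e he t) (fun i => filS S (G i)) := by
  intro k
  have h1 := congrArg (filS S) (h k)
  rw [filS_sum, filS_zero] at h1
  rw [← h1]
  refine Finset.sum_congr rfl fun i _ => ?_
  exact (filS_mul e hS (E.B k i) (G i)).symm

/-! ### descent -/

theorem cc_fil {E : Bundle2 n} {e : ℕ} (he : 0 < e) (t : ℤ) (W : Wedge (triv (pull E e he t)))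
    {G H : Vec E.a n} (hG : Ker (pull E e he t) G) (hH : Ker (pull E e he t) H)
    (T : Finset (Fin (n + 1))) :
    coeff 0 (W.wd (fun i => fil e T (G i)) H) = coeff 0 (W.wd G H) := by
  classical
  induction T using Finset.induction_on with
  | empty =>
    have h : (fun i => fil e ∅ (G i)) = G := by
      funext i
      exact fil_empty e (G i)
    rw [h]
  | insert j T _ ih =>
    rw [← ih]
    have h1 : ∀ i, ∃ K, fil e T (G i) - fil e (insert j T) (G i) = X j * K :=
      fun i => X_dvd_sub e T j (G i)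
    choose K hK using h1
    have k1 := ker_filS he t (per_ok e T) hG
    have k2 := ker_filS he t (per_ok e (insert j T)) hG
    have k3 := ker_sub k1 k2
    have hKfun : (fun i => fil e T (G i) - fil e (insert j T) (G i)) = fun i => X j * K i :=
      funext hK
    have k4 : Ker (pull E e he t) K := by
      apply ker_of_mul (X_ne_zero j)
      rw [← hKfun]
      exact k3
    have h2 := wd_sub_left W k1 k2 hH
    rw [hKfun, W.smul _ _ _ k4 hH] at h2
    have h3 := congrArg (coeff 0) h2
    rw [coeff_sub] at h3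
    have h4 : coeff 0 (X j * W.wd K H) = 0 := by
      rw [← constantCoeff_eq, map_mul, constantCoeff_X, zero_mul]
    rw [h4] at h3
    exact (sub_eq_zero.1 h3.symm).symm

/-- the degree of a descended vector -/
theorem descend_degree {E : Bundle2 n} {e : ℕ} (he : 0 < e) {m : ℤ} {H : Vec E.a n}
    (hne : ∃ i, H i ≠ 0) (h : ∀ i, HomZ (expand e (H i)) (e * E.β i + m)) :
    ∃ d : ℤ, m = e * d ∧ ∀ i, HomZ (H i) (E.β i + d) := by
  obtain ⟨i0, hi0⟩ := hne
  obtain ⟨s, hs⟩ := ne_zero_iff.1 hi0
  have h1 := HomZ.iff.1 (h i0) (e • s) (by rwa [coeff_expand_smul _ he.ne'])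
  rw [degree_smul] at h1
  push_cast at h1
  refine ⟨s.degree - E.β i0, ?_, ?_⟩
  · linear_combination -h1
  · intro i
    apply HomZ.of_expand e he
    have h2 : (e : ℤ) * (E.β i + (s.degree - E.β i0)) = e * E.β i + m := by
      linear_combination h1
    rw [h2]
    exact h i

/-- A bundle splits if its pull-back under a power map does. -/
theorem splits_of_pull (hn : 1 ≤ n) {E : Bundle2 n} {e : ℕ} (he : 0 < e) (t : ℤ)
    (h : (pull E e he t).Splits) : E.Splits := by
  obtain ⟨p, q, G1, G2, h1, h2, hli⟩ := h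
  obtain ⟨W⟩ := exists_wedge hn (triv (pull E e he t))
  have k1 := ker_of_section h1
  have k2 := ker_of_section h2
  have hw : ∀ x : Fin (n + 1) → ℂ, x ≠ 0 → eval x (W.wd G1 G2) ≠ 0 := fun x hx =>
    (W.ind x hx G1 G2 k1 k2).2 (hli x hx)
  obtain ⟨c0, hc0, hwc⟩ := const_of_no_zero (by omega) hw
  have hE1 : ∀ i, ∃ H, expand e H = fil e Finset.univ (G1 i) := fun i => exists_expand_fil e _
  have hE2 : ∀ i, ∃ H, expand e H = fil e Finset.univ (G2 i) := fun i => exists_expand_fil e _
  choose H1 hH1 using hE1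
  choose H2 hH2 using hE2
  have hf1 : (fun i => expand e (H1 i)) = fun i => fil e Finset.univ (G1 i) := funext hH1
  have hf2 : (fun i => expand e (H2 i)) = fun i => fil e Finset.univ (G2 i) := funext hH2
  have kf1 : Ker (pull E e he t) (fun i => expand e (H1 i)) := by
    rw [hf1]; exact ker_filS he t (per_ok e _) k1
  have kf2 : Ker (pull E e he t) (fun i => expand e (H2 i)) := by
    rw [hf2]; exact ker_filS he t (per_ok e _) k2
  have hcc : coeff 0 (W.wd (fun i => expand e (H1 i)) (fun i => expand e (H2 i))) = c0 := by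
    have e1 : W.wd (fun i => expand e (H1 i)) (fun i => expand e (H2 i)) =
        - W.wd (fun i => expand e (H2 i)) (fun i => expand e (H1 i)) := W.anti _ _ kf1 kf2
    have e2 : W.wd G2 G1 = - W.wd G1 G2 := W.anti _ _ k2 k1
    have e3 : W.wd (fun i => expand e (H1 i)) G2 = - W.wd G2 (fun i => expand e (H1 i)) :=
      W.anti _ _ kf1 k2
    have e4 : coeff 0 (W.wd (fun i => expand e (H2 i)) (fun i => expand e (H1 i))) =
        coeff 0 (W.wd G2 (fun i => expand e (H1 i))) := by
      rw [hf2]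
      exact cc_fil he t W k2 kf1 _
    have e5 : coeff 0 (W.wd (fun i => expand e (H1 i)) G2) = coeff 0 (W.wd G1 G2) := by
      rw [hf1]
      exact cc_fil he t W k1 k2 _
    rw [e3, coeff_neg] at e5
    rw [e1, coeff_neg, e4, e5, hwc, coeff_C, if_pos rfl]
  have hne1 : ∃ i, H1 i ≠ 0 := by
    by_contra hcon
    push Not at hcon
    have h0 : W.wd (fun i => expand e (H1 i)) (fun i => expand e (H2 i)) = 0 := by
      apply wd_eq_of W kf1 kf2
      intro i j
      rw [hcon i, hcon j, map_zero]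
      ring
    rw [h0, coeff_zero] at hcc
    exact hc0 hcc.symm
  have hne2 : ∃ i, H2 i ≠ 0 := by
    by_contra hcon
    push Not at hcon
    have h0 : W.wd (fun i => expand e (H1 i)) (fun i => expand e (H2 i)) = 0 := by
      apply wd_eq_of W kf1 kf2
      intro i j
      rw [hcon i, hcon j, map_zero]
      ring
    rw [h0, coeff_zero] at hcc
    exact hc0 hcc.symm
  have hh1 : ∀ i, HomZ (expand e (H1 i)) (e * E.β i + (t + -p)) := by
    intro i
    rw [hH1 i, ← add_assoc]
    exact HomZ.filS _ (h1.1 i)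
  have hh2 : ∀ i, HomZ (expand e (H2 i)) (e * E.β i + (t + -q)) := by
    intro i
    rw [hH2 i, ← add_assoc]
    exact HomZ.filS _ (h2.1 i)
  obtain ⟨d1, hd1, hhd1⟩ := descend_degree (E := E) he hne1 hh1
  obtain ⟨d2, hd2, hhd2⟩ := descend_degree (E := E) he hne2 hh2
  -- the wedge product is constant
  have s1 : HSec (triv (pull E e he t)) (-p, 0) (fun i => expand e (H1 i)) := by
    refine hsec_triv (fun i => ?_) kf1
    show HomZ _ (e * E.β i + t + -p)
    rw [add_assoc]
    exact hh1 i
  have s2 : HSec (triv (pull E e he t)) (-q, 0) (fun i => expand e (H2 i)) := by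
    refine hsec_triv (fun i => ?_) kf2
    show HomZ _ (e * E.β i + t + -q)
    rw [add_assoc]
    exact hh2 i
  have hz := homZ_of (W.hom _ _ _ _ s1 s2)
  rw [HomZ.iff] at hz
  have hz0 := hz 0 (by rw [hcc]; exact hc0)
  have hconst : W.wd (fun i => expand e (H1 i)) (fun i => expand e (H2 i)) = C c0 := by
    classical
    ext s
    rw [coeff_C]
    split_ifs with hs
    · rw [← hs, hcc]
    · by_contra hne
      have h5 := hz s hne
      rw [← hz0, map_zero] at h5
      have h6 : s.degree = 0 := by exact_mod_cast h5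
      exact hs ((Finsupp.degree_eq_zero_iff s).1 h6).symm
  refine ⟨-d1, -d2, H1, H2, ?_, ?_, ?_⟩
  · rw [neg_neg]
    exact section_of_ker hhd1 ((ker_pull he t).1 kf1)
  · rw [neg_neg]
    exact section_of_ker hhd2 ((ker_pull he t).1 kf2)
  · intro y hy
    obtain ⟨x, hx, rfl⟩ := exists_pt he hy
    have h7 := (W.ind x hx _ _ kf1 kf2).1 (by rw [hconst, eval_C]; exact hc0)
    have h8 : evv (fun i => expand e (H1 i)) x = evv H1 (pt e x) := by
      funext i; exact eval_pt e x _
    have h9 : evv (fun i => expand e (H2 i)) x = evv H2 (pt e x) := by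
      funext i; exact eval_pt e x _
    rw [h8, h9] at h7
    exact h7

/-! ### sections -/

/-- `E(d)` has a non-zero section -/
def HasSec (E : Bundle2 n) (d : ℤ) : Prop :=
  ∃ G : Fin E.a → MvPolynomial (Fin (n + 1)) ℂ, G ≠ 0 ∧ E.IsSection d G

theorem HasSec.succ {E : Bundle2 n} {d : ℤ} (h : HasSec E d) : HasSec E (d + 1) := by
  obtain ⟨G, hG0, hG⟩ := h
  refine ⟨fun i => X 0 * G i, ?_, section_of_ker ?_ (ker_mul (ker_of_section hG) _)⟩
  · intro h0
    apply hG0
    funext i
    exact (mul_eq_zero.1 (congrFun h0 i)).resolve_left (X_ne_zero 0)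
  · intro i
    have h1 : HomZ (X 0 : R n) 1 := Or.inr ⟨1, rfl, isHomogeneous_X _ _⟩
    have h2 := HomZ.mul h1 (hG.1 i)
    have h3 : (1 : ℤ) + (E.β i + d) = E.β i + (d + 1) := by ring
    rwa [h3] at h2

theorem HasSec.mono {E : Bundle2 n} {d d' : ℤ} (h : HasSec E d) (hd : d ≤ d') : HasSec E d' := by
  obtain ⟨k, rfl⟩ := Int.le.dest hd
  clear hd
  induction k with
  | zero => simpa using h
  | succ k ih =>
    have h1 := ih.succ
    push_cast
    rwa [← add_assoc]

theorem HasSec.pull {E : Bundle2 n} {d : ℤ} (h : HasSec E d) {e : ℕ} (he : 0 < e) (t : ℤ) :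
    HasSec (pull E e he t) (e * d - t) := by
  obtain ⟨G, hG0, hG⟩ := h
  refine ⟨fun i => expand e (G i), ?_, section_of_ker ?_ ((ker_pull he t).2 (ker_of_section hG))⟩
  · intro h0
    apply hG0
    funext i
    apply expand_injective he
    rw [Pi.zero_apply, map_zero]
    exact congrFun h0 i
  · intro i
    have h1 := HomZ.expand e he (hG.1 i)
    have h2 : (e : ℤ) * (E.β i + d) = (e * E.β i + t) + (e * d - t) := by ring
    rw [h2] at h1
    exact h1

/-- a section of the pull-back gives a section of the bundle -/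
theorem HasSec.of_pull {E : Bundle2 n} {d : ℤ} {e : ℕ} (he : 0 < e) (t : ℤ)
    (h : HasSec (PW.pull E e he t) d) : ∃ d', HasSec E d' ∧ e * d' ≤ d + t := by
  classical
  obtain ⟨G, hG0, hG⟩ := h
  have hi : ∃ i, G i ≠ 0 := by
    by_contra hcon
    push Not at hcon
    exact hG0 (funext hcon)
  obtain ⟨i0, hi0⟩ := hi
  obtain ⟨s, hs⟩ := ne_zero_iff.1 hi0
  let r : Fin (n + 1) →₀ ℕ := Finsupp.equivFunOnFinite.symm fun j => s j % e
  have hr : ∀ j, r j < e := fun j => Nat.mod_lt _ he
  have hE : ∀ i, ∃ H, monomial r 1 * expand e H = filS (Cg e r) (G i) :=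
    fun i => exists_expand_cg e r hr (G i)
  choose H hH using hE
  have kG := ker_of_section hG
  have k1 := ker_filS he t (per_cg e r) kG
  have hf : (fun i => filS (Cg e r) (G i)) = fun i => monomial r 1 * expand e (H i) :=
    (funext hH).symm
  have hm : (monomial r (1 : ℂ)) ≠ 0 := by
    rw [Ne, monomial_eq_zero]; exact one_ne_zero
  have k2 : Ker (PW.pull E e he t) (fun i => expand e (H i)) := by
    apply ker_of_mul hm
    rw [← hf]
    exact k1
  have hne : H i0 ≠ 0 := by
    intro h0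
    have h1 := hH i0
    rw [h0, map_zero, mul_zero] at h1
    have h2 := congrArg (coeff s) h1
    rw [coeff_zero, coeff_filS, if_pos] at h2
    · exact hs h2.symm
    · intro j
      show s j % e = (s j % e) % e
      rw [Nat.mod_mod]
  have hh : ∀ i, HomZ (expand e (H i)) (e * E.β i + (t + d - r.degree)) := by
    intro i
    have h1 : HomZ (filS (Cg e r) (G i)) (e * E.β i + t + d) := HomZ.filS _ (hG.1 i)
    rw [HomZ.iff] at h1 ⊢
    intro u hu
    have h2 := h1 (r + u) (by rw [← hH i, coeff_monomial_mul, one_mul]; exact hu)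
    rw [map_add] at h2
    push_cast at h2
    linarith
  obtain ⟨d', hd', hhd'⟩ := descend_degree (E := E) he ⟨i0, hne⟩ hh
  refine ⟨d', ⟨H, fun h0 => hne (congrFun h0 i0), section_of_ker hhd' ((ker_pull he t).1 k2)⟩, ?_⟩
  rw [← hd']
  have : (0 : ℤ) ≤ r.degree := by positivity
  linarith

end Pool.Agent.Q72.PW
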