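import Pool.Agent.Q72.PW.Main

/-!
# Infinitesimal symmetries and power maps
-/

set_option autoImplicit false

open MvPolynomial H960VB H938TB

namespace Pool.Agent.Q72.PW

variable {n : ℕ}

/-- the derivative of `p` in the direction of the linear vector field `x ↦ N x` -/
noncomputable def alg (N : Matrix (Fin (n + 1)) (Fin (n + 1)) ℂ) (p : R n) : R n :=
  ∑ s, pderiv s p * (∑ t, C (N s t) * X t)

/-- lifts (as in `MP_b01859_ag.SymmetryAlgebra`) -/
structure Lf (E : Bundle2 n) (N : Matrix (Fin (n + 1)) (Fin (n + 1)) ℂ)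
    (D : (Fin E.a → R n) → (Fin E.a → R n)) : Prop where
  sec : ∀ d G, E.IsSection d G → E.IsSection d (D G)
  add : ∀ d G G', E.IsSection d G → E.IsSection d G' → D (G + G') = D G + D G'
  leib : ∀ d e p G, E.IsSection d G → HomZ p e → D (p • G) = alg N p • G + p • D G

/-! ### multiplication of the coordinates by numbers -/

/-- the substitution `X_j ↦ g_j X_j` -/
noncomputable def sg (g : Fin (n + 1) → ℂ) : R n →ₐ[ℂ] R n := aeval (fun j => C (g j) * X j)

theorem sg_X (g : Fin (n + 1) → ℂ) (j : Fin (n + 1)) : sg g (X j) = C (g j) * X j := by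
  rw [sg, aeval_X]

theorem sg_C (g : Fin (n + 1) → ℂ) (c : ℂ) : sg g (C c) = C c := by
  rw [sg, aeval_C]
  rfl

theorem sg_comp (g g' : Fin (n + 1) → ℂ) (h : ∀ j, g j * g' j = 1) (p : R n) :
    sg g (sg g' p) = p := by
  induction p using MvPolynomial.induction_on with
  | C a => rw [sg_C, sg_C]
  | add p q hp hq => rw [map_add, map_add, hp, hq]
  | mul_X p j hp =>
    rw [map_mul, map_mul, hp, sg_X, map_mul, sg_C, sg_X]
    have h1 : (C (g' j) : R n) * (C (g j) * X j) = X j := by
      rw [← mul_assoc, ← C_mul, mul_comm (g' j), h j, C_1, one_mul]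
    rw [h1]

theorem sg_expand {e : ℕ} (g : Fin (n + 1) → ℂ) (h : ∀ j, g j ^ e = 1) (p : R n) :
    sg g (expand e p) = expand e p := by
  induction p using MvPolynomial.induction_on with
  | C a => rw [expand_C, sg_C]
  | add p q hp hq => rw [map_add, map_add, hp, hq]
  | mul_X p j hp =>
    rw [map_mul, map_mul, hp, expand_X, map_pow, sg_X, mul_pow, ← C_pow, h j, C_1, one_mul]

theorem pderiv_sg (g : Fin (n + 1) → ℂ) (s : Fin (n + 1)) (p : R n) :
    pderiv s (sg g p) = C (g s) * sg g (pderiv s p) := by
  induction p using MvPolynomial.induction_on with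
  | C a => rw [sg_C, pderiv_C, map_zero, mul_zero]
  | add p q hp hq => rw [map_add, map_add, hp, hq, map_add, map_add, mul_add]
  | mul_X p j hp =>
    rw [map_mul, Derivation.leibniz (pderiv s) (sg g p) (sg g (X j)), hp, sg_X,
      Derivation.leibniz (pderiv s) (C (g j)) (X j), pderiv_C,
      Derivation.leibniz (pderiv s) p (X j)]
    simp only [smul_eq_mul, smul_zero, add_zero, map_add, map_mul, sg_X]
    by_cases hj : j = s
    · subst hj
      rw [pderiv_X_self, map_one]
      ring
    · rw [pderiv_X_of_ne hj, map_zero]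
      ring

theorem alg_conj (g g' : Fin (n + 1) → ℂ) (h : ∀ j, g j * g' j = 1)
    (N : Matrix (Fin (n + 1)) (Fin (n + 1)) ℂ) (p : R n) :
    sg g' (alg N (sg g p)) = alg (fun s t => g s * N s t * g' t) p := by
  unfold alg
  rw [map_sum]
  refine Finset.sum_congr rfl fun s _ => ?_
  rw [map_mul, pderiv_sg, map_mul, sg_C, sg_comp g' g (fun j => by rw [mul_comm, h]), map_sum,
    mul_right_comm, Finset.mul_sum, mul_comm, Finset.mul_sum, Finset.mul_sum]
  refine Finset.sum_congr rfl fun t _ => ?_
  rw [map_mul, sg_C, sg_X]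
  simp only [C_mul]
  ring

theorem homZ_sg (g : Fin (n + 1) → ℂ) {p : R n} {d : ℤ} (h : HomZ p d) : HomZ (sg g p) d := by
  rcases h with rfl | ⟨k, hk, hp⟩
  · left; rw [map_zero]
  · right
    refine ⟨k, hk, ?_⟩
    have h1 := hp.aeval (n := 1) (fun j => C (g j) * X j) (fun j => by
      simpa using (isHomogeneous_C (Fin (n + 1)) (g j)).mul (isHomogeneous_X ℂ j))
    simpa [sg] using h1

theorem ker_sg {E : Bundle2 n} {e : ℕ} (he : 0 < e) (t : ℤ) (g : Fin (n + 1) → ℂ)
    (h : ∀ j, g j ^ e = 1) {G : Vec (pull E e he t).a n} (hG : Ker (pull E e he t) G) :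
    Ker (pull E e he t) (fun i => sg g (G i)) := by
  intro k
  have h1 := congrArg (sg g) (hG k)
  rw [map_sum, map_zero] at h1
  rw [← h1]
  refine Finset.sum_congr rfl fun i _ => ?_
  rw [map_mul]
  congr 1
  exact (sg_expand g h (E.B k i)).symm

theorem sec_sg {E : Bundle2 n} {e : ℕ} (he : 0 < e) (t : ℤ) (g : Fin (n + 1) → ℂ)
    (h : ∀ j, g j ^ e = 1) {d : ℤ} {G : Fin (pull E e he t).a → R n}
    (hG : (pull E e he t).IsSection d G) :
    (pull E e he t).IsSection d (fun i => sg g (G i)) :=
  section_of_ker (fun i => homZ_sg g (hG.1 i)) (ker_sg he t g h (ker_of_section hG))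

/-- the conjugate of a lift -/
theorem lf_conj {E : Bundle2 n} {e : ℕ} (he : 0 < e) (t : ℤ) (g g' : Fin (n + 1) → ℂ)
    (h : ∀ j, g j ^ e = 1) (hg : ∀ j, g j * g' j = 1)
    {N : Matrix (Fin (n + 1)) (Fin (n + 1)) ℂ}
    {D : (Fin (pull E e he t).a → R n) → (Fin (pull E e he t).a → R n)}
    (hD : Lf (pull E e he t) N D) :
    Lf (pull E e he t) (fun s t => g s * N s t * g' t)
      (fun G i => sg g' (D (fun i => sg g (G i)) i)) := by
  have h' : ∀ j, g' j ^ e = 1 := by
    intro j
    have h1 := congrArg (· ^ e) (hg j)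
    simp only [mul_pow, h j, one_mul, one_pow] at h1
    exact h1
  refine ⟨?_, ?_, ?_⟩
  · intro d G hG
    exact sec_sg he t g' h' (hD.sec d _ (sec_sg he t g h hG))
  · intro d G G' hG hG'
    funext i
    have h1 : (fun i => sg g ((G + G') i)) = (fun i => sg g (G i)) + fun i => sg g (G' i) := by
      funext i
      simp only [Pi.add_apply, map_add]
    show sg g' (D (fun i => sg g ((G + G') i)) i) = _
    rw [h1, hD.add d _ _ (sec_sg he t g h hG) (sec_sg he t g h hG')]
    simp only [Pi.add_apply, map_add]
  · intro d m p G hG hp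
    funext i
    have h1 : (fun i => sg g ((p • G) i)) = sg g p • fun i => sg g (G i) := by
      funext i
      simp only [Pi.smul_apply, smul_eq_mul, map_mul]
    show sg g' (D (fun i => sg g ((p • G) i)) i) = _
    rw [h1, hD.leib d m _ _ (sec_sg he t g h hG) (homZ_sg g hp)]
    simp only [Pi.add_apply, Pi.smul_apply, smul_eq_mul, map_add, map_mul]
    rw [alg_conj g g' hg, sg_comp g' g (fun j => by rw [mul_comm, hg]),
      sg_comp g' g (fun j => by rw [mul_comm, hg])]

/-! ### descent of diagonal symmetries -/

theorem alg_expand {e : ℕ} (he : 0 < e) (v : Fin (n + 1) → ℂ) (p : R n) :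
    alg (Matrix.diagonal v) (expand e p) =
      expand e (alg (Matrix.diagonal fun i => (e : ℂ) * v i) p) := by
  have hd : ∀ (u : Fin (n + 1) → ℂ) (q : R n),
      alg (Matrix.diagonal u) q = ∑ s, pderiv s q * (C (u s) * X s) := by
    intro u q
    unfold alg
    refine Finset.sum_congr rfl fun s _ => ?_
    rw [Finset.sum_eq_single s]
    · rw [Matrix.diagonal_apply_eq]
    · intro t _ ht
      rw [Matrix.diagonal_apply_ne _ (Ne.symm ht), C_0, zero_mul]
    · intro h; exact absurd (Finset.mem_univ _) h
  rw [hd, hd, map_sum]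
  refine Finset.sum_congr rfl fun s _ => ?_
  have key : ∀ q : R n, pderiv s (expand e q) * X s = C (e : ℂ) * expand e (pderiv s q * X s) := by
    intro q
    induction q using MvPolynomial.induction_on with
    | C a => rw [expand_C, pderiv_C, zero_mul, map_zero, mul_zero]
    | add p q hp hq =>
      rw [map_add, map_add, add_mul, hp, hq, map_add, add_mul, map_add, mul_add]
    | mul_X p j hp =>
      rw [map_mul, expand_X, Derivation.leibniz, Derivation.leibniz, smul_eq_mul, smul_eq_mul,
        smul_eq_mul, smul_eq_mul, add_mul, add_mul, map_add, mul_add]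
      congr 1
      · by_cases hj : j = s
        · subst hj
          rw [pderiv_X_self, mul_one, pderiv_pow, pderiv_X_self, mul_one, map_mul, expand_X]
          have h1 : (X j : R n) ^ (e - 1) * X j = X j ^ e := by
            rw [← pow_succ, Nat.sub_add_cancel he]
          rw [← C_eq_coe_nat]
          calc expand e p * (C (e : ℂ) * X j ^ (e - 1)) * X j
              = expand e p * C (e : ℂ) * (X j ^ (e - 1) * X j) := by ring
            _ = C (e : ℂ) * (expand e p * X j ^ e) := by rw [h1]; ring
        · rw [pderiv_X_of_ne hj, pderiv_pow, pderiv_X_of_ne hj]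
          simp
      · have h2 : X j ^ e * pderiv s (expand e p) * X s = X j ^ e * (pderiv s (expand e p) * X s) := by
          ring
        have h4 : X j * pderiv s p * X s = X j * (pderiv s p * X s) := by ring
        rw [h2, hp, h4, map_mul (expand e) (X j), expand_X]
        ring
  have h3 := key p
  rw [map_mul] at h3
  rw [map_mul, map_mul, expand_C, C_mul]
  calc pderiv s (expand e p) * (C (v s) * X s) = C (v s) * (pderiv s (expand e p) * X s) := by ring
    _ = _ := by rw [h3]; ring

/-- descent -/
noncomputable def desc (e : ℕ) (p : R n) : R n := (exists_expand_fil e p).choose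

theorem expand_desc (e : ℕ) (p : R n) : expand e (desc e p) = fil e Finset.univ p :=
  (exists_expand_fil e p).choose_spec

theorem fil_add (e : ℕ) (T : Finset (Fin (n + 1))) (p q : R n) :
    fil e T (p + q) = fil e T p + fil e T q := by
  classical
  ext s
  rw [coeff_add, coeff_fil, coeff_fil, coeff_fil, coeff_add]
  split_ifs
  · rfl
  · rw [add_zero]

theorem fil_expand (e : ℕ) (p : R n) : fil e Finset.univ (expand e p) = expand e p := by
  classical
  ext s
  rw [coeff_fil]
  split_ifs with h
  · rfl
  · by_contra hne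
    exact h fun j _ => coeff_expand_dvd (Ne.symm hne) j

theorem desc_add {e : ℕ} (he : 0 < e) (p q : R n) : desc e (p + q) = desc e p + desc e q := by
  apply expand_injective he
  rw [map_add, expand_desc, expand_desc, expand_desc, fil_add]

theorem desc_expand_mul {e : ℕ} (he : 0 < e) (p q : R n) :
    desc e (expand e p * q) = p * desc e q := by
  apply expand_injective he
  rw [map_mul, expand_desc, expand_desc]
  exact filS_mul e (per_ok e _) p q

theorem desc_expand {e : ℕ} (he : 0 < e) (p : R n) : desc e (expand e p) = p := by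
  apply expand_injective he
  rw [expand_desc, fil_expand]

theorem sec_expand {E : Bundle2 n} {e : ℕ} (he : 0 < e) (t : ℤ) {d : ℤ} {G : Fin E.a → R n}
    (hG : E.IsSection d G) :
    (pull E e he t).IsSection (e * d - t) (fun i => expand e (G i)) := by
  refine section_of_ker ?_ ((ker_pull he t).2 (ker_of_section hG))
  intro i
  have h1 := HomZ.expand e he (hG.1 i)
  have h2 : (e : ℤ) * (E.β i + d) = (e * E.β i + t) + (e * d - t) := by ring
  rw [h2] at h1
  exact h1

theorem sec_desc {E : Bundle2 n} {e : ℕ} (he : 0 < e) (t : ℤ) {d : ℤ}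
    {G : Fin (pull E e he t).a → R n} (hG : (pull E e he t).IsSection (e * d - t) G) :
    E.IsSection d (fun i => desc e (G i)) := by
  have k1 := ker_filS he t (per_ok e Finset.univ) (ker_of_section hG)
  have hf : (fun i => filS (Ok e Finset.univ) (G i)) = fun i => expand e (desc e (G i)) :=
    funext fun i => (expand_desc e (G i)).symm
  refine section_of_ker (fun i => ?_) ((ker_pull he t).1 (by rw [← hf]; exact k1))
  apply HomZ.of_expand e he
  rw [expand_desc]
  have h1 : HomZ (fil e Finset.univ (G i)) (e * E.β i + t + (e * d - t)) :=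
    HomZ.filS _ (hG.1 i)
  have h2 : (e : ℤ) * (E.β i + d) = e * E.β i + t + (e * d - t) := by ring
  rw [h2]
  exact h1

/-- a diagonal symmetry of the pull-back descends -/
theorem lf_desc {E : Bundle2 n} {e : ℕ} (he : 0 < e) (t : ℤ) {v : Fin (n + 1) → ℂ}
    {D : (Fin (pull E e he t).a → R n) → (Fin (pull E e he t).a → R n)}
    (hD : Lf (pull E e he t) (Matrix.diagonal v) D) :
    Lf E (Matrix.diagonal fun i => (e : ℂ) * v i)
      (fun G i => desc e (D (fun i => expand e (G i)) i)) := by
  refine ⟨?_, ?_, ?_⟩
  · intro d G hG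
    exact sec_desc he t (hD.sec _ _ (sec_expand he t hG))
  · intro d G G' hG hG'
    funext i
    have h1 : (fun i => expand e ((G + G') i)) =
        (fun i => expand e (G i)) + fun i => expand e (G' i) := by
      funext i
      simp only [Pi.add_apply, map_add]
    show desc e (D (fun i => expand e ((G + G') i)) i) = _
    rw [h1, hD.add _ _ _ (sec_expand he t hG) (sec_expand he t hG')]
    simp only [Pi.add_apply]
    exact desc_add he _ _
  · intro d m p G hG hp
    funext i
    have h1 : (fun i => expand e ((p • G) i)) = expand e p • fun i => expand e (G i) := by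
      funext i
      simp only [Pi.smul_apply, smul_eq_mul, map_mul]
    show desc e (D (fun i => expand e ((p • G) i)) i) = _
    rw [h1, hD.leib _ _ _ _ (sec_expand he t hG) (HomZ.expand e he hp)]
    simp only [Pi.add_apply, Pi.smul_apply, smul_eq_mul]
    rw [desc_add he, alg_expand he, desc_expand_mul he, desc_expand_mul he, desc_expand he]

end Pool.Agent.Q72.PW
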